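import Mathlib

/-!
The topological part of OC/P1B: images of balls under embeddings with one singular point.
By helper380.
-/

set_option autoImplicit false
set_option linter.unusedSectionVars false

open Set Filter Topology Metric Function

namespace Pool.Agent.N380.OC

section

variable {E : Type*} [NormedAddCommGroup E] [NormedSpace ℝ E]

theorem conn_sub {A S V : Set E} (hA : IsOpen A) (hAS : IsClosed (A ∪ S)) (hV : IsPreconnected V)
    (hVS : Disjoint V S) (hne : (V ∩ A).Nonempty) : V ⊆ A := by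
  refine hV.subset_left_of_subset_union hA hAS.isOpen_compl ?_ ?_ hne
  · rw [Set.disjoint_left]
    intro x hx hx2
    exact hx2 (Or.inl hx)
  · intro x hx
    by_cases h : x ∈ A
    · exact Or.inl h
    · refine Or.inr fun h2 => ?_
      rcases h2 with h2 | h2
      · exact h h2
      · exact (Set.disjoint_left.1 hVS) hx h2

theorem conn_punctured (h2 : 1 < Module.rank ℝ E) (c : E) {d : ℝ} (hd : 0 < d) :
    IsPreconnected (ball c d \ {c}) := by
  have h1 : IsPreconnected ({0}ᶜ : Set E) :=
    (isPathConnected_compl_singleton_of_one_lt_rank h2 0).isConnected.isPreconnected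
  have h3 : (ball c d \ {c}) = (fun x : E => c + (d / (1 + ‖x‖)) • x) '' {0}ᶜ := by
    ext z
    constructor
    · rintro ⟨hz, hz2⟩
      rw [mem_ball, dist_eq_norm] at hz
      have hne : z - c ≠ 0 := sub_ne_zero.2 hz2
      have hpos : 0 < ‖z - c‖ := norm_pos_iff.2 hne
      have hd2 : 0 < d - ‖z - c‖ := by linarith
      refine ⟨(d - ‖z - c‖)⁻¹ • (z - c), ?_, ?_⟩
      · rw [mem_compl_iff, mem_singleton_iff]
        exact smul_ne_zero (inv_ne_zero hd2.ne') hne
      · simp only
        rw [norm_smul, norm_inv, Real.norm_of_nonneg hd2.le, smul_smul]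
        have : d / (1 + (d - ‖z - c‖)⁻¹ * ‖z - c‖) * (d - ‖z - c‖)⁻¹ = 1 := by
          field_simp
          ring
        rw [this, one_smul]
        abel
    · rintro ⟨x, hx, rfl⟩
      rw [mem_compl_iff, mem_singleton_iff] at hx
      have hpos : 0 < ‖x‖ := norm_pos_iff.2 hx
      refine ⟨?_, ?_⟩
      · rw [mem_ball, dist_eq_norm, add_sub_cancel_left, norm_smul, Real.norm_of_nonneg (by positivity),
          div_mul_eq_mul_div, div_lt_iff₀ (by positivity)]
        nlinarith
      · rw [mem_singleton_iff]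
        intro h
        have h4 : (d / (1 + ‖x‖)) • x = 0 := by
          have := congrArg (fun w => w - c) h
          simpa using this
        rcases smul_eq_zero.1 h4 with h5 | h5
        · have : 0 < d / (1 + ‖x‖) := by positivity
          linarith
        · exact hx h5
  rw [h3]
  refine h1.image _ ?_
  apply Continuous.continuousOn
  refine continuous_const.add (Continuous.smul ?_ continuous_id)
  exact continuous_const.div (continuous_const.add continuous_norm) fun x => by positivity

theorem closed_image [ProperSpace E] {f : E → E} {r : ℝ} (hf : ContinuousOn f (closedBall 0 r)) :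
    IsClosed (f '' closedBall 0 r) :=
  ((isCompact_closedBall (0 : E) r).image_of_continuousOn hf).isClosed

theorem image_split {f : E → E} {r : ℝ} :
    f '' closedBall 0 r = f '' ball 0 r ∪ f '' sphere 0 r := by
  rw [← image_union, ball_union_sphere]

/-- the image of the open ball is open, also if `f` is singular at `0` -/
theorem open_image [ProperSpace E] (h2 : 1 < Module.rank ℝ E) {f : E → E} {r : ℝ} (hr : 0 < r)
    (hf : ContinuousOn f (closedBall 0 r)) (hi : InjOn f (closedBall 0 r))
    (hm : ∀ y ∈ ball (0 : E) r, y ≠ 0 → map f (𝓝 y) = 𝓝 (f y)) : IsOpen (f '' ball 0 r) := by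
  have hA : IsOpen (f '' (ball 0 r \ {0})) := by
    rw [isOpen_iff_mem_nhds]
    rintro _ ⟨y, ⟨hy, hy0⟩, rfl⟩
    rw [← hm y hy hy0]
    exact image_mem_map ((isOpen_ball.sdiff isClosed_singleton).mem_nhds ⟨hy, hy0⟩)
  rw [isOpen_iff_mem_nhds]
  rintro _ ⟨y, hy, rfl⟩
  by_cases hy0 : y ≠ 0
  · rw [← hm y hy hy0]
    exact image_mem_map (isOpen_ball.mem_nhds hy)
  · push Not at hy0
    subst hy0
    have h0 : (0 : E) ∈ closedBall (0 : E) r := mem_closedBall_self hr.le
    have hcS : f 0 ∉ f '' sphere 0 r := by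
      rintro ⟨w, hw, hw2⟩
      have := hi (sphere_subset_closedBall hw) h0 hw2
      subst this
      rw [mem_sphere, dist_self] at hw
      exact hr.ne hw
    have hS : IsClosed (f '' sphere 0 r) :=
      ((isCompact_sphere (0 : E) r).image_of_continuousOn (hf.mono sphere_subset_closedBall)).isClosed
    obtain ⟨d, hd, hdS⟩ := Metric.isOpen_iff.1 hS.isOpen_compl (f 0) hcS
    have hsplit : f '' closedBall 0 r = f '' (ball 0 r \ {0}) ∪ ({f 0} ∪ f '' sphere 0 r) := by
      rw [image_split (f := f)]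
      ext x
      constructor
      · rintro (⟨w, hw, rfl⟩ | h)
        · by_cases h5 : w = 0
          · subst h5
            exact Or.inr (Or.inl rfl)
          · exact Or.inl ⟨w, ⟨hw, h5⟩, rfl⟩
        · exact Or.inr (Or.inr h)
      · rintro (⟨w, hw, rfl⟩ | h | h)
        · exact Or.inl ⟨w, hw.1, rfl⟩
        · exact Or.inl ⟨0, mem_ball_self hr, h.symm⟩
        · exact Or.inr h
    -- a point near 0
    have hev : ∀ᶠ y in 𝓝 (0 : E), y ∈ ball (0 : E) r ∧ f y ∈ ball (f 0) d := by
      have h3 : ContinuousAt f 0 := hf.continuousAt (closedBall_mem_nhds 0 hr)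
      have h5 : ∀ᶠ y in 𝓝 (0 : E), y ∈ ball (0 : E) r := ball_mem_nhds (0 : E) hr
      exact h5.and (h3.eventually (ball_mem_nhds _ hd))
    have : Nontrivial E := by
      by_contra hn
      rw [not_nontrivial_iff_subsingleton] at hn
      have : Module.rank ℝ E = 0 := rank_subsingleton' ℝ E
      rw [this] at h2
      exact absurd h2 (by simp)
    obtain ⟨y, ⟨hy1, hy2⟩, hy3⟩ := ((hev.filter_mono nhdsWithin_le_nhds).and
      (self_mem_nhdsWithin : {(0 : E)}ᶜ ∈ 𝓝[≠] (0 : E))).exists
    have hV := conn_sub (V := ball (f 0) d \ {f 0}) hA (S := {f 0} ∪ f '' sphere 0 r)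
      (by rw [← hsplit]; exact closed_image hf) (conn_punctured h2 _ hd)
      (by
        rw [Set.disjoint_left]
        rintro x ⟨hx1, hx2⟩ (hx3 | hx3)
        · exact hx2 hx3
        · exact hdS hx1 hx3)
      ⟨f y, ⟨hy2, fun h => hy3 (hi (ball_subset_closedBall hy1) h0 h)⟩, ⟨y, ⟨hy1, hy3⟩, rfl⟩⟩
    refine mem_of_superset (ball_mem_nhds _ hd) fun x hx => ?_
    by_cases hx0 : x = f 0
    · rw [hx0]
      exact ⟨0, mem_ball_self hr, rfl⟩
    · obtain ⟨w, hw, rfl⟩ := hV ⟨hx, hx0⟩
      exact ⟨w, hw.1, rfl⟩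

theorem sub_of [ProperSpace E] {f g : E → E} {r r' : ℝ} (hr' : r' < r) (hr0 : 0 < r')
    (hnt : Nontrivial E)
    (hf : ContinuousOn f (closedBall 0 r)) (hg : ContinuousOn g (closedBall 0 r))
    (hfi : InjOn f (closedBall 0 r)) (hgo : IsOpen (g '' ball 0 r))
    (he : ∀ y, r' ≤ ‖y‖ → ‖y‖ ≤ r → f y = g y) : f '' ball 0 r ⊆ g '' ball 0 r := by
  have hr : 0 < r := hr0.trans hr'
  have hS : f '' sphere 0 r = g '' sphere 0 r := by
    refine image_congr fun y hy => ?_
    rw [mem_sphere, dist_zero_right] at hy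
    exact he y (by linarith) hy.le
  refine conn_sub (S := g '' sphere 0 r) hgo ?_ ?_ ?_ ?_
  · rw [← image_split]
    exact closed_image hg
  · exact (convex_ball (0 : E) r).isPreconnected.image _ (hf.mono ball_subset_closedBall)
  · rw [← hS, Set.disjoint_left]
    rintro _ ⟨y, hy, rfl⟩ ⟨w, hw, hw2⟩
    have := hfi (sphere_subset_closedBall hw) (ball_subset_closedBall hy) hw2
    subst this
    rw [mem_sphere] at hw
    rw [mem_ball] at hy
    exact hy.ne hw
  · obtain ⟨y, hy⟩ := exists_norm_eq E hr0.le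
    exact ⟨f y, ⟨y, by rw [mem_ball, dist_zero_right]; linarith, rfl⟩,
      ⟨y, by rw [mem_ball, dist_zero_right]; linarith, (he y hy.ge (by linarith)).symm⟩⟩

/-- `f = g` near the sphere: the same image of the ball -/
theorem image_eq [ProperSpace E] {f g : E → E} {r r' : ℝ} (hr' : r' < r) (hr0 : 0 < r')
    (hnt : Nontrivial E)
    (hf : ContinuousOn f (closedBall 0 r)) (hg : ContinuousOn g (closedBall 0 r))
    (hfi : InjOn f (closedBall 0 r)) (hgi : InjOn g (closedBall 0 r))
    (hfo : IsOpen (f '' ball 0 r)) (hgo : IsOpen (g '' ball 0 r))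
    (he : ∀ y, r' ≤ ‖y‖ → ‖y‖ ≤ r → f y = g y) : f '' ball 0 r = g '' ball 0 r :=
  Subset.antisymm (sub_of hr' hr0 hnt hf hg hfi hgo he)
    (sub_of hr' hr0 hnt hg hf hgi hfo fun y h1 h2 => (he y h1 h2).symm)

/-- a ball which misses the image of the sphere and contains `f 0` is in the image of the ball -/
theorem near_sub [ProperSpace E] {f : E → E} {r d : ℝ} {c : E} (hr : 0 < r)
    (hf : ContinuousOn f (closedBall 0 r)) (hfo : IsOpen (f '' ball 0 r))
    (h0 : f 0 ∈ ball c d) (hS : ∀ y, ‖y‖ = r → f y ∉ ball c d) : ball c d ⊆ f '' ball 0 r := by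
  refine conn_sub (S := f '' sphere 0 r) hfo ?_ (convex_ball c d).isPreconnected ?_
    ⟨f 0, h0, ⟨0, mem_ball_self hr, rfl⟩⟩
  · rw [← image_split]
    exact closed_image hf
  · rw [Set.disjoint_left]
    rintro x hx ⟨y, hy, rfl⟩
    rw [mem_sphere, dist_zero_right] at hy
    exact hS y hy hx

/-- the local condition from the derivative -/
theorem map_nhds_of [CompleteSpace E] {f : E → E} {y : E} (h1 : ContDiffAt ℝ 1 f y)
    (h2 : Bijective (fderiv ℝ f y)) : map f (𝓝 y) = 𝓝 (f y) := by
  have h3 : HasStrictFDerivAt f (fderiv ℝ f y) y := h1.hasStrictFDerivAt (by norm_num)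
  exact h3.map_nhds_eq_of_surj (LinearMap.range_eq_top.2 h2.2)

end

end Pool.Agent.N380.OC
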