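import Mathlib

/-!
Local inverse of a family of maps, for OC/P1B. By helper380.
-/

set_option autoImplicit false

open Set Filter Topology Metric Function
open scoped ContDiff

namespace Pool.Agent.N380.OC

theorem loc_inv {E : Type*} [NormedAddCommGroup E] [NormedSpace ℝ E] [CompleteSpace E]
    (g : ℝ → E → E) (s₀ : ℝ) (y₀ : E)
    (hg : ContDiffAt ℝ ∞ (fun p : ℝ × E => g p.1 p.2) (s₀, y₀))
    (hb : Bijective (fderiv ℝ (g s₀) y₀)) :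
    ∃ Y : ℝ × E → E, ContDiffAt ℝ ∞ Y (s₀, g s₀ y₀) ∧ Y (s₀, g s₀ y₀) = y₀ ∧
      (∀ᶠ p in 𝓝 (s₀, g s₀ y₀), g p.1 (Y p) = p.2) ∧
      Bijective (fderiv ℝ (fun z => Y (s₀, z)) (g s₀ y₀)) := by
  have hG : ContDiffAt ℝ ∞ (fun p : ℝ × E => (p.1, g p.1 p.2)) (s₀, y₀) := contDiffAt_fst.prodMk hg
  have hdiff : DifferentiableAt ℝ (fun p : ℝ × E => g p.1 p.2) (s₀, y₀) :=
    hg.differentiableAt (by simp)
  obtain ⟨D, hD⟩ : ∃ D, D = fderiv ℝ (fun p : ℝ × E => g p.1 p.2) (s₀, y₀) := ⟨_, rfl⟩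
  have hD' : HasFDerivAt (fun p : ℝ × E => g p.1 p.2) D (s₀, y₀) := by
    rw [hD]
    exact hdiff.hasFDerivAt
  have hin : HasFDerivAt (fun y : E => ((s₀, y) : ℝ × E)) (ContinuousLinearMap.inr ℝ ℝ E) y₀ :=
    hasFDerivAt_prodMk_right s₀ y₀
  have hgs : HasFDerivAt (g s₀) (D.comp (ContinuousLinearMap.inr ℝ ℝ E)) y₀ :=
    HasFDerivAt.comp (g := fun p : ℝ × E => g p.1 p.2) y₀ hD' hin
  rw [hgs.fderiv] at hb
  have hG' : HasFDerivAt (fun p : ℝ × E => (p.1, g p.1 p.2))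
      ((ContinuousLinearMap.fst ℝ ℝ E).prod D) (s₀, y₀) := hasFDerivAt_fst.prodMk hD'
  have hsplit : ∀ (a : ℝ) (b : E), D (a, b) = D (a, 0) + D (0, b) := by
    intro a b
    rw [← map_add]
    simp
  have hinj : Injective ((ContinuousLinearMap.fst ℝ ℝ E).prod D) := by
    rw [injective_iff_map_eq_zero]
    rintro ⟨a, b⟩ h
    have h1 : a = 0 := congrArg Prod.fst h
    have h2 : D (a, b) = 0 := congrArg Prod.snd h
    subst h1
    have h3 : b = 0 := by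
      apply hb.1
      rw [map_zero]
      exact h2
    rw [h3]
    rfl
  have hsurj : Surjective ((ContinuousLinearMap.fst ℝ ℝ E).prod D) := by
    rintro ⟨a, w⟩
    obtain ⟨b, hb2⟩ := hb.2 (w - D (a, 0))
    have hb3 : D (0, b) = w - D (a, 0) := hb2
    refine ⟨(a, b), ?_⟩
    refine Prod.ext rfl ?_
    change D (a, b) = w
    rw [hsplit, hb3]
    abel
  obtain ⟨L, hL⟩ : ∃ L : (ℝ × E) ≃L[ℝ] (ℝ × E), (L : (ℝ × E) →L[ℝ] (ℝ × E)) =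
      (ContinuousLinearMap.fst ℝ ℝ E).prod D :=
    ⟨ContinuousLinearEquiv.ofBijective _ (LinearMap.ker_eq_bot.2 hinj)
      (LinearMap.range_eq_top.2 hsurj), by ext x <;> rfl⟩
  rw [← hL] at hG'
  have hne : (∞ : WithTop ℕ∞) ≠ 0 := by simp
  have h1 := hG.to_localInverse hG' hne
  have h2 := hG.localInverse_apply_image hG' hne
  have h3 := (hG.hasStrictFDerivAt' hG' hne).eventually_right_inverse
  obtain ⟨Φ, hΦ⟩ : ∃ Φ, Φ = hG.localInverse hG' hne := ⟨_, rfl⟩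
  rw [← hΦ] at h1 h2
  have h3' : ∀ᶠ p in 𝓝 (s₀, g s₀ y₀), ((Φ p).1, g (Φ p).1 (Φ p).2) = p := by
    rw [hΦ]
    exact h3
  have hY1 : ContDiffAt ℝ ∞ (fun p => (Φ p).2) (s₀, g s₀ y₀) := h1.snd
  have hY2 : (Φ (s₀, g s₀ y₀)).2 = y₀ := by rw [h2]
  have hY3 : ∀ᶠ p in 𝓝 (s₀, g s₀ y₀), g p.1 (Φ p).2 = p.2 := by
    filter_upwards [h3'] with p hp
    have e1 : (Φ p).1 = p.1 := (Prod.ext_iff.1 hp).1
    have e2 : g (Φ p).1 (Φ p).2 = p.2 := (Prod.ext_iff.1 hp).2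
    rw [← e2, e1]
  refine ⟨fun p => (Φ p).2, hY1, hY2, hY3, ?_⟩
  have hcont : Tendsto (fun z : E => ((s₀, z) : ℝ × E)) (𝓝 (g s₀ y₀)) (𝓝 (s₀, g s₀ y₀)) :=
    (Continuous.prodMk_right s₀).continuousAt
  have hev : ∀ᶠ z in 𝓝 (g s₀ y₀), g s₀ ((Φ (s₀, z)).2) = z := hcont.eventually hY3
  have hYz : DifferentiableAt ℝ (fun z => (Φ (s₀, z)).2) (g s₀ y₀) := by
    have : DifferentiableAt ℝ (fun p => (Φ p).2) (s₀, g s₀ y₀) := hY1.differentiableAt (by simp)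
    exact DifferentiableAt.comp (g := fun p => (Φ p).2) (g s₀ y₀) this
      (hasFDerivAt_prodMk_right s₀ (g s₀ y₀)).differentiableAt
  obtain ⟨B, hB⟩ : ∃ B, B = fderiv ℝ (fun z => (Φ (s₀, z)).2) (g s₀ y₀) := ⟨_, rfl⟩
  have hB' : HasFDerivAt (fun z => (Φ (s₀, z)).2) B (g s₀ y₀) := by
    rw [hB]
    exact hYz.hasFDerivAt
  obtain ⟨A, hA⟩ : ∃ A, A = D.comp (ContinuousLinearMap.inr ℝ ℝ E) := ⟨_, rfl⟩
  rw [← hA] at hgs hb
  have hgs2 : HasFDerivAt (g s₀) A ((fun z => (Φ (s₀, z)).2) (g s₀ y₀)) := by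
    simp only
    rw [hY2]
    exact hgs
  have hcomp : HasFDerivAt (g s₀ ∘ fun z => (Φ (s₀, z)).2) (A.comp B) (g s₀ y₀) :=
    HasFDerivAt.comp (f := fun z => (Φ (s₀, z)).2) (g s₀ y₀) hgs2 hB'
  have hid : HasFDerivAt (g s₀ ∘ fun z => (Φ (s₀, z)).2) (ContinuousLinearMap.id ℝ E) (g s₀ y₀) :=
    (hasFDerivAt_id (g s₀ y₀)).congr_of_eventuallyEq hev
  have hAB : A.comp B = ContinuousLinearMap.id ℝ E := hcomp.unique hid
  have hAB' : ∀ x, A (B x) = x := fun x => congrArg (fun T : E →L[ℝ] E => T x) hAB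
  change Bijective (fderiv ℝ (fun z => (Φ (s₀, z)).2) (g s₀ y₀))
  rw [← hB]
  refine ⟨fun x y h => ?_, fun w => ⟨A w, hb.1 (hAB' (A w))⟩⟩
  rw [← hAB' x, ← hAB' y, h]

end Pool.Agent.N380.OC
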